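import Pool.Agent.MVO.StmtsN

/-!
# Squad MVO, row NEA: necessity for class a
-/

set_option autoImplicit false

namespace Pool.Agent.MVO.H49

open Pool.Agent.MVO Pool.Agent.Helper14_MV Pool.Agent.Helper2_MV

theorem ofList_rep (m : ℕ) : (FreeMonoid.ofList (List.replicate m 0) : Word) = lx ^ m := by
  induction m with
  | zero => rfl
  | succ m ih =>
    rw [List.replicate_succ, FreeMonoid.ofList_cons, ih, pow_succ']
    rfl

theorem cent_of {β : FIC} (h3 : β ≤ thC3) (hm : ModF β) : Cent β := by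
  have h2 : ∀ w, β.r (lx ^ 2) w → w = lx ^ 2 := by
    intro w hw
    rw [thC3, le_iso_iff] at h3
    exact h3 _ (mem_I2.2 ⟨2, le_rfl, rfl⟩) _ hw
  obtain ⟨k, _, hk⟩ := B2 hm h2
  refine ⟨k, fun m hkm => ?_⟩
  have e1 : (FreeMonoid.ofList (List.replicate m 0 ++ [1]) : Word) = lx ^ m * ly := by
    rw [FreeMonoid.ofList_append, ofList_rep]
    rfl
  have e2 : (FreeMonoid.ofList (1 :: List.replicate m 0) : Word) = ly * lx ^ m := by
    rw [FreeMonoid.ofList_cons, ofList_rep]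
    rfl
  unfold RR
  rw [e1, e2]
  exact hk m hkm

theorem nc2_of {β : FIC} (h : Iso3 β) : NC2 β := by
  intro h1
  have h2 := h _ (h1.append (RR.refl [0]))
  exact absurd h2 (by decide)

/-- **NEA** -/
theorem nea (nra : NraStmt) (nca : NcaStmt) (ncb : NcbStmt) (ncc : NccStmt) (ncd : NcdStmt)
    (nce : NceStmt) (ncf : NcfStmt) (noo : NooStmt) : NeaStmt := by
  intro β h3 hiso hcl hmod
  have hc := cent_of h3 hmod
  have H : HypA β := ⟨h3, hiso, hcl, hmod, hc⟩
  refine ⟨nra β H, hc, ?_⟩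
  by_cases hO3 : O3 (FC.ofFIC β)
  · exact Or.inr (Or.inr (Or.inl hO3))
  rcases noo β h3 (nc2_of hiso) hc hmod with h | h | h | h
  · exact Or.inl ⟨h, nca β H h hO3, ncb β H h hO3, ncc β H h hO3⟩
  · exact Or.inr (Or.inl ⟨h, ncd β H h hO3, nce β H h hO3, ncf β H h hO3⟩)
  · exact absurd h hO3
  · exact Or.inr (Or.inr (Or.inr h))

end Pool.Agent.MVO.H49
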