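import Pool.Agent.MVO.StmtsM

/-!
# Squad MVO, row MRD: transfer of properties to the mirror image
-/

set_option autoImplicit false

namespace Pool.Agent.MVO.H49

open Pool.Agent.MVO Pool.Agent.Helper14_MV Pool.Agent.Helper2_MV

theorem rr_mir {β : FIC} {l l' : List ℕ} :
    RR (MVD.mir β) l l' ↔ RR β l.reverse l'.reverse := Iff.rfl

theorem asm_eq {k : ℕ} {B B' : ℕ → List ℕ} (h : ∀ j ≤ k, B j = B' j) : asm k B = asm k B' := by
  induction k with
  | zero => exact h 0 le_rfl
  | succ k ih =>
    show asm k B ++ (k + 2) :: B (k + 1) = asm k B' ++ (k + 2) :: B' (k + 1)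
    rw [ih (fun j hj => h j (by omega)), h (k + 1) le_rfl]

theorem deg_rev (k : ℕ) (a : ℕ → ℕ) : deg k (fun j => a (k - j)) = deg k a := by
  unfold deg
  have h := Finset.sum_range_reflect a (k + 1)
  rw [← h]
  refine Finset.sum_congr rfl fun j hj => ?_
  congr 1

theorem rvv_rvv {k : ℕ} (a : ℕ → ℕ) {j : ℕ} (hj : j ≤ k) : rvv k (rvv k a) j = a j := by
  unfold rvv
  congr 1
  omega

theorem l1_congr {ρ : FIC} {k : ℕ} {a a' b b' : ℕ → ℕ} (ha : ∀ j ≤ k, a j = a' j)
    (hb : ∀ j ≤ k, b j = b' j) (h : L1 ρ k a b) : L1 ρ k a' b' := by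
  unfold L1 mw at h ⊢
  have e1 : asm k (fun j => List.replicate (a j) 0) = asm k (fun j => List.replicate (a' j) 0) :=
    asm_eq fun j hj => by rw [ha j hj]
  have e2 : asm k (fun j => List.replicate (b j) 0) = asm k (fun j => List.replicate (b' j) 0) :=
    asm_eq fun j hj => by rw [hb j hj]
  rw [e1, e2] at h
  exact h

theorem bt_congr {ρ : FIC} {k : ℕ} {a a' b b' : ℕ → ℕ} {i : ℕ} (ha : ∀ j ≤ k, a j = a' j)
    (hb : ∀ j ≤ k, b j = b' j) (h : Bt ρ k a b i) : Bt ρ k a' b' i := by
  intro e
  have h1 := h e
  unfold Ex w2 at h1 ⊢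
  have e1 : ∀ e : ℕ → Bool, asm k (fun j => bl (a j) (b j) (e j)) =
      asm k (fun j => bl (a' j) (b' j) (e j)) := fun e =>
    asm_eq fun j hj => by rw [ha j hj, hb j hj]
  rw [e1, e1] at h1
  exact h1

theorem wu_step {θ : FIC} (h : WUAt (MVD.mir θ)) {u v : List ℕ} {c : ℕ} (huv : RR θ u v)
    (hne : u.count c ≠ v.count c) :
    RR θ u (List.replicate (u.count c) c ++ u.filter (fun d => d ≠ c)) := by
  have h1 : RR (MVD.mir θ) u.reverse v.reverse := by
    rw [rr_mir, List.reverse_reverse, List.reverse_reverse]
    exact huv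
  have h2 := h u.reverse v.reverse c h1 (by rwa [List.count_reverse, List.count_reverse])
  rw [rr_mir, List.reverse_reverse, List.reverse_append, List.count_reverse,
    List.reverse_replicate, List.filter_reverse, List.reverse_reverse] at h2
  exact h2

/-- **MRD** -/
theorem mrd (mra : MraStmt) (mrt : MrtStmt) : MrdStmt := by
  refine ⟨fun β ρ h => ?_, fun ω h => ?_, fun θ h => ?_⟩
  · intro k a a' hd hdd hl
    have h1 : L1 (MVD.mir ρ) k (rvv k a) (rvv k a') := by
      rw [(mrt ρ).1]
      exact l1_congr (fun j hj => (rvv_rvv a hj).symm) (fun j hj => (rvv_rvv a' hj).symm) hl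
    have hda : ∀ a : ℕ → ℕ, deg k (rvv k a) = deg k a := fun a => deg_rev k a
    rcases h k (rvv k a) (rvv k a') (by rw [hda]; exact hd) (by rw [hda, hda]; exact hdd) h1 with
      h2 | h2
    · left
      rw [(mrt β).1] at h2
      exact l1_congr (fun j hj => rvv_rvv a hj) (fun j hj => rvv_rvv a' hj) h2
    · right
      intro b e hb i hi
      have h3 : Bt (MVD.mir ρ) k (rvv k a) (rvv k b) (k - i) := fun e' =>
        h2 (rvv k b) e' (by rw [hda]; exact hb) (k - i) (by omega)
      rw [(mrt ρ).2.1 k _ _ _ (by omega)] at h3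
      have h4 : k - (k - i) = i := by omega
      rw [h4] at h3
      exact bt_congr (fun j hj => rvv_rvv a hj) (fun j hj => rvv_rvv b hj) h3 e
  · intro k B B' hB hB' hmul hdeg hrr
    have hcnt : ∀ (B : ℕ → List ℕ) (c : ℕ), deg k (fun j => (rvB k B j).count c) =
        deg k (fun j => (B j).count c) := by
      intro B c
      rw [← deg_rev k (fun j => (B j).count c)]
      unfold rvB
      simp only [List.count_reverse]
    have hok : ∀ B : ℕ → List ℕ, BlkOk k B → BlkOk k (rvB k B) := by
      intro B hB j hj c hc
      unfold rvB at hc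
      rw [List.mem_reverse] at hc
      exact hB (k - j) (by omega) c hc
    have hr2 : ∀ (x y : ℕ) (B : ℕ → List ℕ), BlkOk k B → BlkOk k (r2 x y B) := by
      intro x y B hB j hj c hc
      unfold r2 at hc
      exact hB j hj c (List.mem_of_mem_filter hc)
    have hrr' : ∀ B : ℕ → List ℕ, ∀ j ≤ k, rvB k (rvB k B) j = B j := by
      intro B j hj
      unfold rvB
      rw [List.reverse_reverse]
      congr 1
      omega
    have h1 : RR (MVD.mir ω) (asm k (rvB k B)) (asm k (rvB k B')) := by
      refine h k (rvB k B) (rvB k B') (hok B hB) (hok B' hB') ?_ ?_ ?_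
      · intro j hj c hc
        rw [hcnt]
        unfold rvB at hc
        rw [List.mem_reverse] at hc
        exact hmul (k - j) (by omega) c hc
      · intro c
        rw [hcnt, hcnt]
        exact hdeg c
      · intro x y
        rw [mra ω k _ _ (hr2 x y _ (hok B hB)) (hr2 x y _ (hok B' hB'))]
        have e : ∀ B : ℕ → List ℕ, asm k (rvB k (r2 x y (rvB k B))) = asm k (r2 x y B) := by
          intro B
          refine asm_eq fun j hj => ?_
          unfold r2 rvB
          rw [← List.filter_reverse, List.reverse_reverse]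
          congr 2
          omega
        rw [e, e]
        exact hrr x y
    rw [mra ω k _ _ (hok B hB) (hok B' hB'), asm_eq (hrr' B), asm_eq (hrr' B')] at h1
    exact h1
  · intro u v c huv hne
    have h1 := wu_step h huv hne
    have h2 : RR θ (List.replicate (u.count c) c) (List.replicate (v.count c) c) := by
      have h3 := huv.filter (fun d => decide (d = c))
      have e : ∀ l : List ℕ, l.filter (fun d => decide (d = c)) =
          List.replicate (l.count c) c := by
        intro l
        rw [← List.filter_eq]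
      rw [e, e] at h3
      exact h3
    set m := u.count c with hm
    set n := v.count c with hn
    set u' := u.filter (fun d => d ≠ c) with hu'
    have h3 : RR θ (u' ++ List.replicate m c) (u' ++ List.replicate n c) :=
      (RR.refl u').append h2
    have hu0 : u'.count c = 0 := by
      rw [List.count_eq_zero, hu', List.mem_filter]
      simp
    have hc : ∀ r : ℕ, (u' ++ List.replicate r c).count c = r := by
      intro r
      rw [List.count_append, hu0, List.count_replicate_self, zero_add]
    have h4 := wu_step h h3 (by rw [hc, hc]; exact hne)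
    rw [hc, List.filter_append] at h4
    have e1 : u'.filter (fun d => d ≠ c) = u' := by
      rw [hu', List.filter_filter]
      simp
    have e2 : (List.replicate m c).filter (fun d => d ≠ c) = [] := by
      rw [List.filter_replicate]
      simp
    rw [e1, e2, List.append_nil] at h4
    exact θ.trans h1 (θ.symm h4)

end Pool.Agent.MVO.H49
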