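import Pool.Agent.Helper66_MVO.WUA
import Pool.Agent.Helper62_MVO.ODR

/-!
# Squad MVO, row OAI: the interior lemma over `O1`
-/

set_option autoImplicit false

namespace Pool.Agent.MVO.H49

open Pool.Agent.MVO Finset

/-- two supports are related in degree `d` -/
def Rx (R : FC) (d k : ℕ) (S T : Finset ℕ) : Prop :=
  ∃ a b : ℕ → ℕ, deg k a = d ∧ deg k b = d ∧ sp k a = S ∧ sp k b = T ∧ R.R k a b

theorem Rx.symm {R : FC} {d k : ℕ} {S T : Finset ℕ} (h : Rx R d k S T) : Rx R d k T S := by
  obtain ⟨a, b, ha, hb, hsa, hsb, hab⟩ := h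
  exact ⟨b, a, hb, ha, hsb, hsa, R.symm hab⟩

theorem Rx.trans (oaa : OaaStmt) {R : FC} (hO : O1 R) {d k : ℕ} {S T U : Finset ℕ}
    (h : Rx R d k S T) (h' : Rx R d k T U) : Rx R d k S U := by
  obtain ⟨a, b, ha, hb, hsa, hsb, hab⟩ := h
  obtain ⟨a', b', ha', hb', hsa', hsb', hab'⟩ := h'
  refine ⟨a, b', ha, hb', hsa, hsb', R.trans hab (R.trans ?_ hab')⟩
  exact oaa R k b a' (Or.inl hO) (hb.trans ha'.symm) (hsb.trans hsa'.symm)

theorem Rx.use (oaa : OaaStmt) {R : FC} (hO : O1 R) {d k : ℕ} {S T : Finset ℕ}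
    (h : Rx R d k S T) {a b : ℕ → ℕ} (ha : deg k a = d) (hb : deg k b = d) (hsa : sp k a = S)
    (hsb : sp k b = T) : R.R k a b := by
  obtain ⟨a', b', ha', hb', hsa', hsb', hab'⟩ := h
  refine R.trans (oaa R k a a' (Or.inl hO) (ha.trans ha'.symm) (hsa.trans hsa'.symm))
    (R.trans hab' ?_)
  exact oaa R k b' b (Or.inl hO) (hb'.trans hb.symm) (hsb'.trans hsb.symm)

theorem Rx.push {R : FC} {d k : ℕ} {S T : Finset ℕ} (h : Rx R d k S T) {k' : ℕ} {f : ℕ → ℕ}
    (hf : BMap k k' f) : Rx R d k' (S.image f) (T.image f) := by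
  obtain ⟨a, b, ha, hb, hsa, hsb, hab⟩ := h
  refine ⟨psh k f a, psh k f b, ?_, ?_, ?_, ?_, R.push k' f hf hab⟩
  · rw [H66.deg_psh hf.le, ha]
  · rw [H66.deg_psh hf.le, hb]
  · rw [H66.sp_psh hf.le, hsa]
  · rw [H66.sp_psh hf.le, hsb]

theorem exv {d k : ℕ} {S : Finset ℕ} (hS : S.Nonempty) (hd : S.card ≤ d)
    (hk : ∀ s ∈ S, s ≤ k) : ∃ a : ℕ → ℕ, deg k a = d ∧ sp k a = S := by
  obtain ⟨s, hs⟩ := hS
  refine ⟨fun j => (if j ∈ S then 1 else 0) + sg s (d - S.card) j, ?_, ?_⟩
  · have h1 : deg k (fun j => if j ∈ S then 1 else 0) = S.card := by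
      unfold deg
      rw [Finset.sum_ite_mem, Finset.sum_const, smul_eq_mul, mul_one,
        Finset.inter_eq_right.mpr]
      intro j hj
      have := hk j hj
      rw [Finset.mem_range]
      omega
    rw [H66.deg_add, h1, H66.deg_sg _ (hk s hs)]
    omega
  · ext j
    rw [H66.mem_sp]
    constructor
    · rintro ⟨hj, h⟩
      by_contra hjS
      apply h
      have hjs : j ≠ s := fun e => hjS (e ▸ hs)
      simp [sg, hjs, hjS]
    · intro hj
      refine ⟨hk j hj, ?_⟩
      simp only [hj, if_true]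
      omega

theorem card_sp_le (k : ℕ) (a : ℕ → ℕ) : (sp k a).card ≤ deg k a := by
  unfold deg
  calc (sp k a).card = ∑ _j ∈ sp k a, 1 := by simp
    _ ≤ ∑ j ∈ sp k a, a j :=
        Finset.sum_le_sum (fun j hj => Nat.one_le_iff_ne_zero.mpr (H66.mem_sp.mp hj).2)
    _ ≤ ∑ j ∈ range (k + 1), a j := Finset.sum_le_sum_of_subset (Finset.filter_subset _ _)

theorem Rx.of_ip {R : FC} {d k m : ℕ} (h : IP R m d) {S T : Finset ℕ} (hS : S.Nonempty)
    (hT : T.Nonempty) (hSd : S.card ≤ d) (hTd : T.card ≤ d) (hSk : ∀ s ∈ S, s ≤ k)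
    (hTk : ∀ s ∈ T, s ≤ k) (hSm : S.card ≤ m) (hTm : T.card ≤ m) (hmin : S.min = T.min)
    (hmax : S.max = T.max) : Rx R d k S T := by
  obtain ⟨a, ha, hsa⟩ := exv hS hSd hSk
  obtain ⟨b, hb, hsb⟩ := exv hT hTd hTk
  exact ⟨a, b, ha, hb, hsa, hsb, h k a b ha hb (hsa.symm ▸ hSm) (hsb.symm ▸ hTm)
    (by rw [hsa, hsb, hmin]) (by rw [hsa, hsb, hmax])⟩

theorem mem_iff_small {S : Finset ℕ} (hS : S.card ≤ 2) (x : ℕ) :
    x ∈ S ↔ (S.min = WithTop.some x ∨ S.max = WithBot.some x) := by
  constructor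
  · intro hx
    have hne : S.Nonempty := ⟨x, hx⟩
    by_contra hcon
    rw [not_or, ← Finset.coe_min' hne, ← Finset.coe_max' hne] at hcon
    have h1 : S.min' hne ≠ x := fun h => hcon.1 (by rw [h])
    have h2 : S.max' hne ≠ x := fun h => hcon.2 (by rw [h])
    have h3 : S.min' hne ≤ x := S.min'_le x hx
    have h4 : x ≤ S.max' hne := S.le_max' x hx
    have h5 : ({S.min' hne, x, S.max' hne} : Finset ℕ) ⊆ S := by
      intro y hy
      rw [Finset.mem_insert, Finset.mem_insert, Finset.mem_singleton] at hy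
      rcases hy with rfl | rfl | rfl
      · exact S.min'_mem hne
      · exact hx
      · exact S.max'_mem hne
    have h6 := Finset.card_le_card h5
    rw [Finset.card_eq_three.mpr ⟨S.min' hne, x, S.max' hne, h1, by omega, h2.symm, rfl⟩] at h6
    omega
  · rintro (h | h)
    · exact Finset.mem_of_min h
    · exact Finset.mem_of_max h

theorem ip_small (oaa : OaaStmt) {R : FC} (hO : O1 R) (d : ℕ) {m : ℕ} (hm : m ≤ 2) :
    IP R m d := by
  intro k a b ha hb hca hcb hmin hmax
  refine oaa R k a b (Or.inl hO) (ha.trans hb.symm) ?_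
  ext x
  rw [mem_iff_small (hca.trans hm), mem_iff_small (hcb.trans hm), hmin, hmax]

theorem min_pair {s t : ℕ} (h : s ≤ t) : ({s, t} : Finset ℕ).min = WithTop.some s := by
  rw [Finset.min_insert, Finset.min_singleton]
  exact min_eq_left (WithTop.coe_le_coe.mpr h)

theorem max_pair {s t : ℕ} (h : s ≤ t) : ({s, t} : Finset ℕ).max = WithBot.some t := by
  rw [Finset.max_insert, Finset.max_singleton]
  exact max_eq_right (WithBot.coe_le_coe.mpr h)

theorem pair_right {R : FC} {d : ℕ} (h : Rx R d 1 {0, 1} {1}) {k j l : ℕ} (hjl : j < l)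
    (hl : l ≤ k) : Rx R d k {j, l} {l} := by
  have hb : BMap 1 k (H62.to2 j l) := H62.bmap_of (H62.to2_mono hjl.le) (fun i _ => by
    unfold H62.to2
    split_ifs <;> omega)
  have h1 := h.push hb
  rw [Finset.image_insert, Finset.image_singleton] at h1
  exact h1

theorem pair_left {R : FC} {d : ℕ} (h : Rx R d 1 {0, 1} {0}) {k j l : ℕ} (hjl : j < l)
    (hl : l ≤ k) : Rx R d k {j, l} {j} := by
  have hb : BMap 1 k (H62.to2 j l) := H62.bmap_of (H62.to2_mono hjl.le) (fun i _ => by
    unfold H62.to2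
    split_ifs <;> omega)
  have h1 := h.push hb
  rw [Finset.image_insert, Finset.image_singleton, Finset.image_singleton] at h1
  exact h1

theorem image_cut {m t : ℕ} (ht : t + 1 < m) : (range m).image (H62.cut t) = {0, 1} := by
  ext j
  rw [Finset.mem_image, Finset.mem_insert, Finset.mem_singleton]
  constructor
  · rintro ⟨i, _, rfl⟩
    unfold H62.cut
    split_ifs <;> omega
  · rintro (rfl | rfl)
    · exact ⟨0, Finset.mem_range.mpr (by omega), by unfold H62.cut; rw [if_pos (Nat.zero_le t)]⟩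
    · exact ⟨t + 1, Finset.mem_range.mpr ht, by unfold H62.cut; rw [if_neg (by omega)]⟩

theorem step (oaa : OaaStmt) {R : FC} (hO : O1 R) {d m : ℕ} (hm : 3 ≤ m) (hmd : m ≤ d)
    (hip : IP R (m - 1) d) {S1 : Finset ℕ} (hS1 : S1 ⊂ range m) (hne : S1.Nonempty)
    (h : Rx R d (m - 1) (range m) S1) : Rx R d (m - 1) (range m) {0, m - 1} := by
  have hcard : S1.card ≤ m - 1 := by
    have := Finset.card_lt_card hS1
    rw [Finset.card_range] at this
    omega
  have hsub : ∀ s ∈ S1, s ≤ m - 1 := by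
    intro s hs
    have := Finset.mem_range.mp (hS1.1 hs)
    omega
  obtain ⟨s, hs⟩ : ∃ s, s = S1.min' hne := ⟨_, rfl⟩
  obtain ⟨t, ht⟩ : ∃ t, t = S1.max' hne := ⟨_, rfl⟩
  have hst : s ≤ t := by
    rw [hs, ht]
    exact S1.min'_le _ (S1.max'_mem hne)
  have htm : t ≤ m - 1 := by
    rw [ht]
    exact hsub _ (S1.max'_mem hne)
  have h1 : Rx R d (m - 1) (range m) {s, t} := by
    refine h.trans oaa hO (Rx.of_ip hip hne ⟨s, by simp⟩ (by omega) ?_ hsub ?_ hcard ?_ ?_ ?_)
    · exact Finset.card_le_two.trans (by omega)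
    · intro x hx
      rw [Finset.mem_insert, Finset.mem_singleton] at hx
      omega
    · exact Finset.card_le_two.trans (by omega)
    · rw [min_pair hst, hs, Finset.coe_min']
    · rw [max_pair hst, ht, Finset.coe_max']
  have hright : 0 < s → Rx R d 1 {0, 1} {1} := by
    intro hs0
    have hb : BMap (m - 1) 1 (H62.cut 0) :=
      H62.bmap_of (H62.cut_mono 0) (fun i _ => H62.cut_le 0 i)
    have h2 := h1.push hb
    rw [image_cut (by omega), Finset.image_insert, Finset.image_singleton] at h2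
    have h3 : H62.cut 0 s = 1 := by unfold H62.cut; rw [if_neg (by omega)]
    have h4 : H62.cut 0 t = 1 := by unfold H62.cut; rw [if_neg (by omega)]
    rw [h3, h4, Finset.pair_eq_singleton] at h2
    exact h2
  have hleft : t < m - 1 → Rx R d 1 {0, 1} {0} := by
    intro ht0
    have hb : BMap (m - 1) 1 (H62.cut (m - 2)) :=
      H62.bmap_of (H62.cut_mono _) (fun i _ => H62.cut_le _ i)
    have h2 := h1.push hb
    rw [image_cut (by omega), Finset.image_insert, Finset.image_singleton] at h2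
    have h3 : H62.cut (m - 2) s = 0 := by unfold H62.cut; rw [if_pos (by omega)]
    have h4 : H62.cut (m - 2) t = 0 := by unfold H62.cut; rw [if_pos (by omega)]
    rw [h3, h4, Finset.pair_eq_singleton] at h2
    exact h2
  have hR : 0 < s → ∀ j l : ℕ, j ≤ l → l ≤ m - 1 → Rx R d (m - 1) (range m) {j, l} →
      Rx R d (m - 1) (range m) {l} := by
    intro hs0 j l hjl hl hx
    rcases hjl.eq_or_lt with rfl | hlt
    · rwa [Finset.pair_eq_singleton] at hx
    · exact hx.trans oaa hO (pair_right (hright hs0) hlt hl)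
  have hL : t < m - 1 → ∀ j l : ℕ, j ≤ l → l ≤ m - 1 → Rx R d (m - 1) (range m) {j, l} →
      Rx R d (m - 1) (range m) {j} := by
    intro hs0 j l hjl hl hx
    rcases hjl.eq_or_lt with rfl | hlt
    · rwa [Finset.pair_eq_singleton] at hx
    · exact hx.trans oaa hO (pair_left (hleft hs0) hlt hl)
  rcases Nat.eq_zero_or_pos s with hs0 | hs0
  · rcases htm.eq_or_lt with ht0 | ht0
    · rw [hs0, ht0] at h1
      exact h1
    · have h2 := hL ht0 s t hst htm h1
      rw [hs0] at h2
      exact h2.trans oaa hO (pair_left (hleft ht0) (by omega) le_rfl).symm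
  · have h2 := hR hs0 s t hst htm h1
    rcases htm.eq_or_lt with ht0 | ht0
    · rw [ht0] at h2
      exact h2.trans oaa hO (pair_right (hright hs0) (by omega) le_rfl).symm
    · have h3 := h2.trans oaa hO (pair_left (hleft ht0) ht0 le_rfl).symm
      have h4 := hR hs0 t (m - 1) htm le_rfl h3
      exact h4.trans oaa hO (pair_right (hright hs0) (by omega) le_rfl).symm

theorem lift (oaa : OaaStmt) {R : FC} (hO : O1 R) {d m : ℕ} (hm : 3 ≤ m)
    (hip : IP R (m - 1) d) (h : Rx R d (m - 1) (range m) {0, m - 1}) : IP R m d := by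
  have key : ∀ (k : ℕ) (c : ℕ → ℕ), deg k c = d → (sp k c).card ≤ m →
      ∃ c', deg k c' = d ∧ (sp k c').card ≤ m - 1 ∧ (sp k c').min = (sp k c).min ∧
        (sp k c').max = (sp k c).max ∧ R.R k c c' := by
    intro k c hc hcard
    rcases Nat.lt_or_ge (sp k c).card m with hlt | hge
    · exact ⟨c, hc, by omega, rfl, rfl, R.refl k c⟩
    have heq : (sp k c).card = m := le_antisymm hcard hge
    have hbm : BMap (m - 1) k (H62.en (sp k c)) :=
      H62.en_bmap (fun s hs => (H66.mem_sp.1 hs).1) (by omega)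
    have h1 := h.push hbm
    have h2 : (range m).image (H62.en (sp k c)) = sp k c := by
      have := H62.en_image (sp k c)
      rwa [heq] at this
    rw [h2, Finset.image_insert, Finset.image_singleton] at h1
    obtain ⟨a', b', ha', hb', hsa', hsb', hab'⟩ := h1
    have hle : H62.en (sp k c) 0 ≤ H62.en (sp k c) (m - 1) :=
      (H62.en_lt (by omega) (by omega)).le
    refine ⟨b', hb', ?_, ?_, ?_, ?_⟩
    · rw [hsb']
      exact Finset.card_le_two.trans (by omega)
    · rw [hsb', min_pair hle]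
      refine le_antisymm (Finset.le_min fun x hx => ?_) (Finset.min_le (H62.en_mem (by omega)))
      rw [← H62.en_image (sp k c)] at hx
      obtain ⟨r, hr, rfl⟩ := Finset.mem_image.mp hx
      rw [Finset.mem_range] at hr
      rcases Nat.eq_zero_or_pos r with rfl | hr0
      · exact le_rfl
      · exact WithTop.coe_le_coe.mpr (H62.en_lt hr0 hr).le
    · rw [hsb', max_pair hle]
      refine le_antisymm (Finset.le_max (H62.en_mem (by omega))) (Finset.max_le fun x hx => ?_)
      rw [← H62.en_image (sp k c)] at hx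
      obtain ⟨r, hr, rfl⟩ := Finset.mem_image.mp hx
      rw [Finset.mem_range] at hr
      rcases (show r ≤ m - 1 by omega).eq_or_lt with rfl | hr0
      · exact le_rfl
      · exact WithBot.coe_le_coe.mpr (H62.en_lt hr0 (by omega)).le
    · exact R.trans (oaa R k c a' (Or.inl hO) (hc.trans ha'.symm) hsa'.symm) hab'
  intro k a b ha hb hca hcb hmin hmax
  obtain ⟨a', ha', hca', hmin', hmax', haa'⟩ := key k a ha hca
  obtain ⟨b', hb', hcb', hmin'', hmax'', hbb'⟩ := key k b hb hcb
  refine R.trans haa' (R.trans (hip k a' b' ha' hb' hca' hcb' ?_ ?_) (R.symm hbb'))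
  · rw [hmin', hmin'', hmin]
  · rw [hmax', hmax'', hmax]

theorem image_idn {m i : ℕ} (hi : i + 1 < m) : (range m).image (H62.idn i) = range (m - 1) := by
  ext j
  rw [Finset.mem_image, Finset.mem_range]
  constructor
  · rintro ⟨l, hl, rfl⟩
    rw [Finset.mem_range] at hl
    unfold H62.idn
    split_ifs <;> omega
  · intro hj
    by_cases hji : j ≤ i
    · exact ⟨j, Finset.mem_range.mpr (by omega), by unfold H62.idn; rw [if_pos hji]⟩
    · exact ⟨j + 1, Finset.mem_range.mpr (by omega), by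
        unfold H62.idn; rw [if_neg (by omega)]; omega⟩

theorem oai_main (oaa : OaaStmt) {R : FC} (hO : O1 R) (d : ℕ) :
    ∀ m : ℕ, m ≤ d → ∀ S1 : Finset ℕ, S1 ⊂ range m → S1.Nonempty →
      Rx R d (m - 1) (range m) S1 → IP R m d := by
  intro m
  induction m with
  | zero =>
    intro _ S1 hS1 _ _
    exact ip_small oaa hO d (by omega)
  | succ m ih =>
    intro hmd S1 hS1 hne h
    rcases Nat.lt_or_ge m 2 with hm | hm
    · exact ip_small oaa hO d (by omega)
    have hip : IP R m d := by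
      rcases Nat.lt_or_ge m 3 with hm3 | hm3
      · exact ip_small oaa hO d (by omega)
      obtain ⟨p, hp, hpS⟩ := Finset.exists_of_ssubset hS1
      rw [Finset.mem_range] at hp
      have hmain : ∃ i, i + 1 < m + 1 ∧ ∃ q, q < m ∧ q ∉ S1.image (H62.idn i) := by
        rcases Nat.lt_or_ge p (m - 1) with hpm | hpm
        · refine ⟨m - 1, by omega, p, by omega, ?_⟩
          intro hq
          obtain ⟨l, hl, hlp⟩ := Finset.mem_image.mp hq
          apply hpS
          have : l = p := by
            unfold H62.idn at hlp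
            split_ifs at hlp <;> omega
          rwa [this] at hl
        · refine ⟨0, by omega, p - 1, by omega, ?_⟩
          intro hq
          obtain ⟨l, hl, hlp⟩ := Finset.mem_image.mp hq
          apply hpS
          have : l = p := by
            unfold H62.idn at hlp
            split_ifs at hlp <;> omega
          rwa [this] at hl
      obtain ⟨i, hi, q, hq, hqS⟩ := hmain
      have hb : BMap (m + 1 - 1) (m - 1) (H62.idn i) :=
        H62.bmap_of (H62.idn_mono i) (fun j hj => by
          unfold H62.idn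
          split_ifs <;> omega)
      have h1 := h.push hb
      rw [image_idn hi] at h1
      refine ih (by omega) (S1.image (H62.idn i)) ?_ (hne.image _) h1
      rw [Finset.ssubset_iff_of_subset]
      · exact ⟨q, Finset.mem_range.mpr hq, hqS⟩
      · have := Finset.image_subset_image (f := H62.idn i) hS1.1
        rwa [image_idn hi] at this
    have hip' : IP R (m + 1 - 1) d := hip
    exact lift oaa hO (by omega) hip' (step oaa hO (by omega) hmd hip' hS1 hne h)

/-- **OAI** -/
theorem oai (oaa : OaaStmt) : OaiStmt := by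
  intro R k a b hO hab hss hR hne
  have hneA : (sp k a).Nonempty := hne.mono hss.1
  have hcpos := Finset.card_pos.mpr hneA
  have hbm : BMap k ((sp k a).card - 1) (H62.rk (sp k a)) :=
    H62.bmap_of (H62.rk_mono _) (fun i _ => by
      have := H62.rk_lt (sp k a) hneA i
      omega)
  have h0 : Rx R (deg k a) k (sp k a) (sp k b) := ⟨a, b, rfl, hab.symm, rfl, rfl, hR⟩
  have h1 := h0.push hbm
  rw [H62.rk_image _ hneA] at h1
  refine oai_main oaa hO (deg k a) _ (card_sp_le k a) _ ?_ (hne.image _) h1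
  rw [← H62.rk_image _ hneA, Finset.ssubset_iff_of_subset (Finset.image_subset_image hss.1)]
  obtain ⟨x, hx, hxb⟩ := Finset.exists_of_ssubset hss
  refine ⟨H62.rk (sp k a) x, Finset.mem_image_of_mem _ hx, ?_⟩
  intro hcon
  obtain ⟨y, hy, hyx⟩ := Finset.mem_image.mp hcon
  have := H62.rk_inj (sp k a) (hss.1 hy) hx hyx
  exact hxb (this ▸ hy)

end Pool.Agent.MVO.H49
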