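import Pool.Agent.MVO.StmtsD

/-!
# MVO, row TRF: transfer of the types in gathered two letter words
-/

namespace Pool.Agent.MVO.H49

open Pool.Agent.Helper14_MV Pool.Agent.Helper2_MV Pool.Agent.MVO

namespace TRF

theorem ns01 (k : ℕ) {c : ℕ} (h : c = 0 ∨ c = 1) : NS k c := fun hs => by
  have := hs.1
  omega

theorem blkRep {k c : ℕ} (hc : NS k c) (a : ℕ → ℕ) :
    BlkOk k (fun j => List.replicate (a j) c) := by
  intro j _ d hd
  rw [List.eq_of_mem_replicate hd]
  exact hc

theorem blkBl {k : ℕ} (a b : ℕ → ℕ) (e : ℕ → Bool) :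
    BlkOk k (fun j => bl (a j) (b j) (e j)) := by
  intro j _ d hd
  apply ns01 k
  simp only [bl] at hd
  split_ifs at hd
  · rcases List.mem_append.1 hd with h | h
    · exact Or.inr (List.eq_of_mem_replicate h)
    · exact Or.inl (List.eq_of_mem_replicate h)
  · rcases List.mem_append.1 hd with h | h
    · exact Or.inl (List.eq_of_mem_replicate h)
    · exact Or.inr (List.eq_of_mem_replicate h)

theorem tr0 {ω : FIC} {k : ℕ} {a a' : ℕ → ℕ} (h : L1 ω k a a') (b : ℕ → ℕ) (e : ℕ → Bool) :
    RR ω (w2 k a b e) (w2 k a' b e) := by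
  have h1 := rr_ins' ω (fun j => if e j then List.replicate (b j) 1 else [])
    (fun j => if e j then [] else List.replicate (b j) 1) (blkRep (ns01 k (Or.inl rfl)) a)
    (blkRep (ns01 k (Or.inl rfl)) a') h
  have e1 : ∀ a : ℕ → ℕ, asm k (fun j => (if e j then List.replicate (b j) 1 else []) ++
      List.replicate (a j) 0 ++ (if e j then [] else List.replicate (b j) 1)) = w2 k a b e := by
    intro a
    unfold w2
    apply asm_congr
    intro j _
    unfold bl
    cases e j <;> simp
  rw [e1, e1] at h1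
  exact h1

theorem flat_rep (n : ℕ) (c : ℕ) (h : ℕ → List ℕ) (d : ℕ) (hd : h c = [d]) :
    (List.replicate n c).flatMap h = List.replicate n d := by
  induction n with
  | zero => rfl
  | succ n ih => rw [List.replicate_succ, List.flatMap_cons, ih, hd]; rfl

theorem tr1 {ω : FIC} {k : ℕ} {b b' : ℕ → ℕ} (h : L1 ω k b b') (a : ℕ → ℕ) (e : ℕ → Bool) :
    RR ω (w2 k a b e) (w2 k a b' e) := by
  have h1 := rr_ins ω (fun j => if e j then [] else List.replicate (a j) 0)
    (fun j => if e j then List.replicate (a j) 0 else []) (fun _ => [1])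
    (blkRep (ns01 k (Or.inl rfl)) b) (blkRep (ns01 k (Or.inl rfl)) b') h
  have e1 : ∀ b : ℕ → ℕ, asm k (fun j => (if e j then [] else List.replicate (a j) 0) ++
      (List.replicate (b j) 0).flatMap (fun _ => [1]) ++
        (if e j then List.replicate (a j) 0 else [])) = w2 k a b e := by
    intro b
    unfold w2
    apply asm_congr
    intro j _
    rw [flat_rep _ _ _ 1 rfl]
    unfold bl
    cases e j <;> simp
  rw [e1, e1] at h1
  exact h1

theorem tr01 {ω : FIC} {k : ℕ} {a a' b b' : ℕ → ℕ} (h : L1 ω k a a') (h' : L1 ω k b b')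
    (e : ℕ → Bool) : RR ω (w2 k a b e) (w2 k a' b' e) :=
  ω.trans (tr0 h b e) (tr1 h' a' e)

/-- exchange of the letters 0 and 1 -/
theorem swp {ω : FIC} {k : ℕ} {a b : ℕ → ℕ} {e e' : ℕ → Bool}
    (h : RR ω (w2 k a b e) (w2 k a b e')) :
    RR ω (w2 k b a (fun j => !(e j))) (w2 k b a (fun j => !(e' j))) := by
  have h1 := rr_sub ω (fun c => [1 - c]) (blkBl a b e) (blkBl a b e') h
  have e1 : ∀ e : ℕ → Bool, asm k (fun j => (bl (a j) (b j) (e j)).flatMap (fun c => [1 - c])) =
      w2 k b a (fun j => !(e j)) := by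
    intro e
    unfold w2
    apply asm_congr
    intro j _
    have hb : ∀ f : Bool, (bl (a j) (b j) f).flatMap (fun c => [1 - c]) =
        bl (b j) (a j) (!f) := by
      intro f
      unfold bl
      cases f
      · simp only [Bool.false_eq_true, if_false, List.flatMap_append, Bool.not_false, if_true]
        rw [flat_rep _ 0 _ 1 rfl, flat_rep _ 1 _ 0 rfl]
      · simp only [Bool.false_eq_true, if_false, List.flatMap_append, Bool.not_true, if_true]
        rw [flat_rep _ 0 _ 1 rfl, flat_rep _ 1 _ 0 rfl]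
    exact hb (e j)
  rw [e1, e1] at h1
  exact h1

end TRF

theorem trf : TrfStmt := by
  refine ⟨fun ρ k a a' b b' h h' e => TRF.tr01 h h' e, ?_, ?_⟩
  · intro ρ k a a' b b' i h h' hB e
    exact ρ.trans (TRF.tr01 h h' e) (ρ.trans (hB e) (RR.symm (TRF.tr01 h h' (flp e i))))
  · intro ρ k a b i hB e
    have h1 := TRF.swp (hB (fun j => !(e j)))
    have e1 : (fun j => !(!(e j))) = e := by
      funext j
      simp
    have e2 : (fun j => !(flp (fun j => !(e j)) i j)) = flp e i := by
      funext j
      unfold flp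
      split_ifs <;> simp
    rw [e1, e2] at h1
    exact h1

end Pool.Agent.MVO.H49
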