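import Pool.Agent.Helper49_MVO.OAI

/-!
# Squad MVO, row WUD: unbalanced relations over `O4`
-/

set_option autoImplicit false

namespace Pool.Agent.MVO.H49

open Pool.Agent.MVO Finset

variable {R : FC}

theorem par_sg {k j : ℕ} (hj : j ≤ k) (D : ℕ) :
    par k (sg j D) = if D % 2 = 1 then {j} else ∅ := by
  ext l
  rw [H62.mem_par, Nat.odd_iff]
  unfold sg
  by_cases hD : D % 2 = 1
  · rw [if_pos hD, Finset.mem_singleton]
    constructor
    · rintro ⟨_, h⟩
      by_contra hne
      rw [if_neg hne] at h
      omega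
    · rintro rfl
      exact ⟨hj, by rw [if_pos rfl]; exact hD⟩
  · rw [if_neg hD]
    constructor
    · rintro ⟨_, h⟩
      split_ifs at h
      omega
    · intro h
      exact absurd h (Finset.notMem_empty l)

theorem par_small (oda : OdaStmt) (hO : O4 R) {k : ℕ} {z : ℕ → ℕ} (hd : 3 ≤ deg k z)
    (hc : (par k z).card ≤ 1) : ∃ j ≤ k, R.R k z (sg j (deg k z)) := by
  have hmod := H62.card_par_mod k z
  rcases Nat.eq_zero_or_pos (par k z).card with h0 | h0
  · refine ⟨0, Nat.zero_le k, oda R k z _ hO hd (H66.deg_sg _ (Nat.zero_le k)).symm ?_⟩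
    rw [Finset.card_eq_zero.mp h0, par_sg (Nat.zero_le k), if_neg (by omega)]
  · obtain ⟨j, hj⟩ := Finset.card_eq_one.mp (show (par k z).card = 1 by omega)
    have hjk : j ≤ k := by
      have : j ∈ par k z := by rw [hj]; exact Finset.mem_singleton_self j
      exact (H62.mem_par.mp this).1
    refine ⟨j, hjk, oda R k z _ hO hd (H66.deg_sg _ hjk).symm ?_⟩
    rw [hj, par_sg hjk, if_pos (by omega)]

theorem empty4 (oda : OdaStmt) (hO : O4 R) {K : ℕ} (hK : ∀ m, K ≤ m → H66.Cn R m) (k : ℕ) :
    ∀ (n : ℕ) (z : ℕ → ℕ), (par k z).card = n → 3 ≤ deg k z → K + n ≤ deg k z →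
      ∃ j ≤ k, R.R k z (sg j (deg k z)) := by
  classical
  intro n
  induction n using Nat.strong_induction_on with
  | _ n ih =>
  intro z hz hd hdeg
  rcases Nat.lt_or_ge 1 (par k z).card with hn | hn
  · obtain ⟨i, hi, j, hj, hij⟩ := Finset.one_lt_card.mp hn
    have hik := (H62.mem_par.mp hi).1
    have hjk := (H62.mem_par.mp hj).1
    set T : Finset ℕ := (par k z).erase i with hTdef
    set r : ℕ → ℕ := fun l => if l ∈ T then 1 else 0 with hr
    have hTcard : T.card = n - 1 := by
      rw [hTdef, Finset.card_erase_of_mem hi, hz]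
    have hTle : ∀ l ∈ T, l ≤ k := fun l hl => (H62.mem_par.mp (Finset.mem_of_mem_erase hl)).1
    have hrdeg : deg k r = n - 1 := by
      unfold deg
      rw [hr, Finset.sum_ite_mem, Finset.sum_const, smul_eq_mul, mul_one]
      rw [Finset.inter_eq_right.mpr, hTcard]
      intro l hl
      exact Finset.mem_range.mpr (Nat.lt_succ_of_le (hTle l hl))
    obtain ⟨M, hM⟩ : ∃ M, deg k z = M + (n - 1) := ⟨deg k z - (n - 1), by omega⟩
    have hMK : K ≤ M := by omega
    have hmod := H62.card_par_mod k z
    have hModd : M % 2 = 1 := by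
      rw [hz] at hmod hn
      omega
    have hiT : i ∉ T := Finset.notMem_erase i _
    have hjT : j ∈ T := Finset.mem_erase.mpr ⟨hij.symm, hj⟩
    have h1 : R.R k z (fun l => sg i M l + r l) := by
      refine oda R k _ _ hO hd ?_ ?_
      · rw [H66.deg_add, H66.deg_sg M hik, hrdeg, hM]
      · ext l
        rw [H62.mem_par, H62.mem_par]
        refine and_congr_right fun hl => ?_
        by_cases hli : l = i
        · rw [hli]
          simp only [sg, hr, hiT, if_true, if_false, add_zero]
          exact ⟨fun _ => Nat.odd_iff.mpr hModd, fun _ => (H62.mem_par.mp hi).2⟩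
        · by_cases hlT : l ∈ T
          · simp only [sg, hr, hli, hlT, if_true, if_false, zero_add]
            exact ⟨fun _ => odd_one, fun _ =>
              (H62.mem_par.mp (Finset.mem_of_mem_erase hlT)).2⟩
          · simp only [sg, hr, hli, hlT, if_false, zero_add]
            constructor
            · intro ho
              exact absurd (Finset.mem_erase.mpr ⟨hli, H62.mem_par.mpr ⟨hl, ho⟩⟩) hlT
            · intro ho
              exact absurd ho (by decide)
    have h2 : R.R k (fun l => sg i M l + r l) (fun l => sg j M l + r l) :=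
      R.add r (H66.Cn_move (hK M hMK) hik hjk)
    have h3deg : deg k (fun l => sg j M l + r l) = deg k z := by
      rw [H66.deg_add, H66.deg_sg M hjk, hrdeg, hM]
    have h3par : par k (fun l => sg j M l + r l) = T.erase j := by
      ext l
      rw [H62.mem_par, Finset.mem_erase]
      by_cases hlj : l = j
      · rw [hlj]
        simp only [sg, hr, hjT, if_true, Nat.odd_iff]
        constructor
        · rintro ⟨_, h⟩
          omega
        · rintro ⟨h, _⟩
          exact absurd rfl h
      · by_cases hlT : l ∈ T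
        · simp only [sg, hr, hlj, hlT, if_true, if_false, zero_add]
          exact ⟨fun _ => ⟨hlj, trivial⟩, fun _ => ⟨hTle l hlT, odd_one⟩⟩
        · simp only [sg, hr, hlj, hlT, if_false, zero_add]
          constructor
          · rintro ⟨_, ho⟩
            exact absurd ho (by decide)
          · rintro ⟨_, h⟩
            exact h.elim
    obtain ⟨j', hj', h4⟩ := ih (n - 2) (by omega) (fun l => sg j M l + r l)
      (by rw [h3par, Finset.card_erase_of_mem hjT, hTcard]; omega)
      (by rw [h3deg]; exact hd) (by rw [h3deg]; omega)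
    rw [h3deg] at h4
    exact ⟨j', hj', R.trans h1 (R.trans h2 h4)⟩
  · exact par_small oda hO hd hn

theorem iter_add {k : ℕ} {c v : ℕ → ℕ} (h : R.R k c (fun l => c l + v l)) :
    ∀ n : ℕ, R.R k c (fun l => c l + n * v l) := by
  intro n
  induction n with
  | zero =>
    refine H66.rel_of_eq fun l _ => ?_
    rw [zero_mul, add_zero]
  | succ n ih =>
    refine R.trans ih ?_
    refine H66.of_eq (fun _ _ => rfl) ?_ (R.add (fun l => n * v l) h)
    intro l _
    ring

theorem par_psh_fix {k : ℕ} {f c : ℕ → ℕ} {S : Finset ℕ} (hS : par k c = S)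
    (hbm : BMap k k f) (hfid : ∀ s ∈ S, f s = s) : par k (psh k f c) = S := by
  have hinj : Set.InjOn f (par k c) := by
    intro x hx y hy hxy
    rw [hS] at hx hy
    rw [hfid x hx, hfid y hy] at hxy
    exact hxy
  rw [H62.par_psh_inj hbm c hinj, hS]
  exact (Finset.image_congr (g := id) (fun x hx => hfid x hx)).trans Finset.image_id

theorem general4 (oda : OdaStmt) (hO : O4 R) {K : ℕ} (hK : ∀ m, K ≤ m → H66.Cn R m) {k : ℕ}
    {c' : ℕ → ℕ} : ∀ (n : ℕ) (c : ℕ → ℕ), (par k c).card = n → 3 ≤ deg k c → R.R k c c' →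
      deg k c < deg k c' → ∃ j ≤ k, R.R k c (sg j (deg k c)) := by
  classical
  intro n
  induction n using Nat.strong_induction_on with
  | _ n ih =>
  intro c hn hd h hlt
  rcases Nat.eq_zero_or_pos n with hn0 | hn0
  · exact par_small oda hO hd (by omega)
  have hE := H66.E_of h
  obtain ⟨g, hg⟩ : ∃ g, deg k c' = deg k c + g := ⟨deg k c' - deg k c, by omega⟩
  have hg1 : 1 ≤ g := by omega
  have hEg : H66.E R (deg k c) (deg k c + g) := hg ▸ hE
  have hSne : (par k c).Nonempty := Finset.card_pos.mp (by omega)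
  obtain ⟨f, hf1, hf2, hf3⟩ := H66.exists_retraction hSne
  have hfk : ∀ i, f i ≤ k := fun i => (H62.mem_par.mp (hf2 i)).1
  have hfb : BMap k k f := H62.bmap_of hf1 (fun i _ => hfk i)
  have hc1 : R.R k c (psh k f c') := by
    refine R.trans ?_ (R.push k f hfb h)
    exact oda R k _ _ hO hd (H62.deg_psh hfb c).symm (par_psh_fix rfl hfb hf3).symm
  have hdeg1 : deg k (psh k f c') = deg k c' := H62.deg_psh hfb c'
  have hsub : par k (psh k f c') ⊆ par k c := by
    intro j hj
    obtain ⟨i, _, rfl⟩ := Finset.mem_image.mp (H62.par_psh_subset c' hj)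
    exact hf2 i
  by_cases hemp : (par k (psh k f c')).Nonempty
  · by_cases heq : par k (psh k f c') = par k c
    · -- the same parity set
      obtain ⟨s, hs⟩ := hSne
      have hsk := (H62.mem_par.mp hs).1
      have hm1 := H62.card_par_mod k c
      have hm2 := H62.card_par_mod k (psh k f c')
      rw [heq, hdeg1, hg] at hm2
      have hgeven : g % 2 = 0 := by omega
      have hparx : ∀ x : ℕ, par k (fun l => c l + x * sg s g l) = par k c := by
        intro x
        ext l
        rw [H62.mem_par, H62.mem_par]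
        refine and_congr_right fun _ => ?_
        have he : (x * sg s g l) % 2 = 0 := by
          unfold sg
          split_ifs
          · rw [Nat.mul_mod, hgeven, mul_zero, Nat.zero_mod]
          · rfl
        rw [Nat.odd_iff, Nat.odd_iff]
        omega
      have h1 : R.R k c (fun l => c l + sg s g l) := by
        refine R.trans hc1 (oda R k _ _ hO (by omega) ?_ ?_)
        · rw [H66.deg_add, H66.deg_sg g hsk, hdeg1, hg]
        · have := hparx 1
          simp only [one_mul] at this
          rw [this, heq]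
      set N := K + (par k c).card with hN
      have h2 := iter_add h1 N
      have hdegz : deg k (fun l => c l + N * sg s g l) = deg k c + N * g := by
        have e1 : deg k (fun l => c l + N * sg s g l) =
            deg k (fun l => c l + sg s (N * g) l) := by
          refine H66.deg_congr fun l _ => ?_
          unfold sg
          split_ifs
          · rfl
          · rw [mul_zero]
        rw [e1, H66.deg_add, H66.deg_sg _ hsk]
      have hle : N ≤ N * g := Nat.le_mul_of_pos_right N hg1
      obtain ⟨j, hj, h3⟩ := empty4 oda hO hK k (par k c).card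
        (fun l => c l + N * sg s g l) (by rw [hparx]) (by rw [hdegz]; omega)
        (by rw [hdegz]; omega)
      rw [hdegz] at h3
      exact ⟨j, hj, R.trans h2 (R.trans h3 (R.symm (H66.E_to (H66.E_iter hEg N) hj)))⟩
    · -- a smaller parity set
      obtain ⟨q, hq1, hq2, hq3⟩ := H66.exists_retraction hemp
      have hqk : ∀ i, q i ≤ k := fun i => (H62.mem_par.mp (hq2 i)).1
      have hqb : BMap k k q := H62.bmap_of hq1 (fun i _ => hqk i)
      have h1 : R.R k (psh k q c) c := by
        refine R.trans (R.push k q hqb hc1) (R.trans ?_ (R.symm hc1))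
        exact oda R k _ _ hO (by rw [H62.deg_psh hqb, hdeg1]; omega) (H62.deg_psh hqb _)
          (par_psh_fix rfl hqb hq3)
      have hsub2 : par k (psh k q c) ⊆ par k (psh k f c') := by
        intro j hj
        obtain ⟨i, _, rfl⟩ := Finset.mem_image.mp (H62.par_psh_subset c hj)
        exact hq2 i
      have hcard : (par k (psh k q c)).card < n := by
        rw [← hn]
        refine lt_of_le_of_lt (Finset.card_le_card hsub2) (Finset.card_lt_card ?_)
        exact Finset.ssubset_iff_subset_ne.mpr ⟨hsub, heq⟩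
      have hdq : deg k (psh k q c) = deg k c := H62.deg_psh hqb c
      obtain ⟨j, hj, h2⟩ := ih _ hcard (psh k q c) rfl (by rw [hdq]; exact hd)
        (R.trans h1 h) (by rw [hdq]; exact hlt)
      rw [hdq] at h2
      exact ⟨j, hj, R.trans (R.symm h1) h2⟩
  · rw [Finset.not_nonempty_iff_eq_empty] at hemp
    obtain ⟨j, hj, h1⟩ := par_small oda hO (z := psh k f c') (by rw [hdeg1]; omega)
      (by rw [hemp]; simp)
    rw [hdeg1] at h1
    exact ⟨j, hj, R.trans hc1 (R.trans h1 (H66.E_to (H66.E_symm hE) hj))⟩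

theorem deg_pair {k : ℕ} {z : ℕ → ℕ} {i j : ℕ} (hij : i ≠ j) (hi : i ≤ k) (hj : j ≤ k)
    (h : ∀ l ≤ k, l ≠ i → l ≠ j → z l = 0) : deg k z = z i + z j := by
  unfold deg
  rw [← Finset.sum_pair hij]
  symm
  refine Finset.sum_subset ?_ ?_
  · intro l hl
    rw [Finset.mem_insert, Finset.mem_singleton] at hl
    rw [Finset.mem_range]
    omega
  · intro l hl hl'
    rw [Finset.mem_insert, Finset.mem_singleton, not_or] at hl'
    exact h l (Nat.lt_succ_iff.mp (Finset.mem_range.mp hl)) hl'.1 hl'.2

/-- the final move in degree two -/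
theorem two_move {K : ℕ} (hK : ∀ m, K ≤ m → H66.Cn R m) {k : ℕ} {c v : ℕ → ℕ} {i j : ℕ}
    (hij : i ≠ j) (hi : i ≤ k) (hj : j ≤ k) (hc : ∀ l ≤ k, l ≠ i → l ≠ j → c l = 0)
    (hv : ∀ l ≤ k, l ≠ i → l ≠ j → v l = 0) (h : R.R k c (fun l => c l + v l))
    (hvi : 1 ≤ v i) : R.R k c (sg j (deg k c)) := by
  have hE := H66.E_of h
  rw [H66.deg_add] at hE
  have h1 := iter_add h K
  have hz : ∀ l ≤ k, c l + K * v l = sg i (c i + K * v i) l + sg j (c j + K * v j) l := by
    intro l hl
    unfold sg
    by_cases h2 : l = i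
    · rw [if_pos h2, if_neg (fun h3 => hij (h2.symm.trans h3)), h2, add_zero]
    · by_cases h3 : l = j
      · rw [if_neg h2, if_pos h3, h3, zero_add]
      · rw [if_neg h2, if_neg h3, hc l hl h2 h3, hv l hl h2 h3, mul_zero]
  have h2 : R.R k c (fun l => sg i (c i + K * v i) l + sg j (c j + K * v j) l) :=
    H66.of_eq (fun _ _ => rfl) hz h1
  have hle : K ≤ c i + K * v i := by
    have := Nat.le_mul_of_pos_right K hvi
    omega
  have h3 : R.R k (fun l => sg i (c i + K * v i) l + sg j (c j + K * v j) l)
      (fun l => sg j (c i + K * v i) l + sg j (c j + K * v j) l) :=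
    R.add _ (H66.Cn_move (hK _ hle) hi hj)
  have hdc : deg k c = c i + c j := deg_pair hij hi hj hc
  have hdv : deg k v = v i + v j := deg_pair hij hi hj hv
  have h4 : ∀ l ≤ k, sg j (c i + K * v i) l + sg j (c j + K * v j) l =
      sg j (deg k c + K * deg k v) l := by
    intro l _
    unfold sg
    split_ifs
    · rw [hdc, hdv]
      ring
    · rfl
  have h5 : R.R k c (sg j (deg k c + K * deg k v)) :=
    R.trans h2 (H66.of_eq (fun _ _ => rfl) h4 h3)
  exact R.trans h5 (R.symm (H66.E_to (H66.E_iter hE K) hj))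

theorem small {K : ℕ} (hK : ∀ m, K ≤ m → H66.Cn R m) {k : ℕ} {c c' : ℕ → ℕ}
    (h : R.R k c c') (hd : deg k c ≤ 2) (hlt : deg k c < deg k c') :
    ∃ j ≤ k, R.R k c (sg j (deg k c)) := by
  classical
  have hcard := card_sp_le k c
  rcases Nat.lt_or_ge (sp k c).card 2 with h2 | h2
  · rcases Nat.eq_zero_or_pos (sp k c).card with h0 | h0
    · refine ⟨0, Nat.zero_le k, H66.rel_of_eq (H66.single (Nat.zero_le k) fun j hj _ => ?_)⟩
      by_contra hne
      have : j ∈ sp k c := H66.mem_sp.mpr ⟨hj, hne⟩
      rw [Finset.card_eq_zero.mp h0] at this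
      exact Finset.notMem_empty j this
    · obtain ⟨s, hs⟩ := Finset.card_eq_one.mp (show (sp k c).card = 1 by omega)
      have hsk : s ≤ k := by
        have : s ∈ sp k c := by rw [hs]; exact Finset.mem_singleton_self s
        exact (H66.mem_sp.mp this).1
      refine ⟨s, hsk, H66.rel_of_eq (H66.single hsk fun j hj hjs => ?_)⟩
      by_contra hne
      have : j ∈ sp k c := H66.mem_sp.mpr ⟨hj, hne⟩
      rw [hs, Finset.mem_singleton] at this
      exact hjs this
  · obtain ⟨i, j, hij, hS⟩ := Finset.card_eq_two.mp (show (sp k c).card = 2 by omega)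
    have hi : i ∈ sp k c := by rw [hS]; simp
    have hj : j ∈ sp k c := by rw [hS]; simp
    obtain ⟨hik, hci⟩ := H66.mem_sp.mp hi
    obtain ⟨hjk, hcj⟩ := H66.mem_sp.mp hj
    have hc0 : ∀ l ≤ k, l ≠ i → l ≠ j → c l = 0 := by
      intro l hl h3 h4
      by_contra hne
      have : l ∈ sp k c := H66.mem_sp.mpr ⟨hl, hne⟩
      rw [hS, Finset.mem_insert, Finset.mem_singleton] at this
      rcases this with h5 | h5
      · exact h3 h5
      · exact h4 h5
    have hdc := deg_pair hij hik hjk hc0
    obtain ⟨f, hf1, hf2, hf3⟩ := H66.exists_retraction (S := sp k c) ⟨i, hi⟩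
    have hfk : ∀ l, f l ≤ k := fun l => (H66.mem_sp.mp (hf2 l)).1
    have hfb : BMap k k f := H62.bmap_of hf1 (fun l _ => hfk l)
    have hc1 : R.R k c (psh k f c') :=
      H66.of_eq (H66.psh_self hf3) (fun _ _ => rfl) (R.push k f hfb h)
    have hdeg1 : deg k (psh k f c') = deg k c' := H62.deg_psh hfb c'
    have hE := H66.E_of hc1
    have h10 : ∀ l ≤ k, l ≠ i → l ≠ j → psh k f c' l = 0 := by
      intro l hl h3 h4
      by_contra hne
      have h5 : l ∈ sp k (psh k f c') := H66.mem_sp.mpr ⟨hl, hne⟩
      rw [H66.sp_psh hfb.le] at h5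
      obtain ⟨x, _, hx⟩ := Finset.mem_image.mp h5
      have h6 := hf2 x
      rw [hx, hS, Finset.mem_insert, Finset.mem_singleton] at h6
      rcases h6 with h5 | h5
      · exact h3 h5
      · exact h4 h5
    have hd1 := deg_pair hij hik hjk h10
    by_cases h1i : psh k f c' i = 0
    · refine ⟨j, hjk, R.trans hc1 (R.trans (H66.rel_of_eq (H66.single hjk fun l hl hlj => ?_))
        (H66.E_to (H66.E_symm hE) hjk))⟩
      by_cases hli : l = i
      · rw [hli]; exact h1i
      · exact h10 l hl hli hlj
    by_cases h1j : psh k f c' j = 0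
    · refine ⟨i, hik, R.trans hc1 (R.trans (H66.rel_of_eq (H66.single hik fun l hl hli => ?_))
        (H66.E_to (H66.E_symm hE) hik))⟩
      by_cases hlj : l = j
      · rw [hlj]; exact h1j
      · exact h10 l hl hli hlj
    set v : ℕ → ℕ := fun l => psh k f c' l - c l with hv
    have hsum : ∀ l ≤ k, psh k f c' l = c l + v l := by
      intro l hl
      by_cases hli : l = i
      · simp only [hv, hli]
        omega
      · by_cases hlj : l = j
        · simp only [hv, hlj]
          omega
        · have h5 := h10 l hl hli hlj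
          have h6 := hc0 l hl hli hlj
          simp only [hv]
          omega
    have hv0 : ∀ l ≤ k, l ≠ i → l ≠ j → v l = 0 := by
      intro l hl h3 h4
      have h5 := h10 l hl h3 h4
      have h6 := hc0 l hl h3 h4
      simp only [hv]
      omega
    have hcv : R.R k c (fun l => c l + v l) := H66.of_eq (fun _ _ => rfl) hsum hc1
    have hvij : 1 ≤ v i ∨ 1 ≤ v j := by
      have h5 := hsum i hik
      have h6 := hsum j hjk
      omega
    rcases hvij with hvi | hvj
    · exact ⟨j, hjk, two_move hK hij hik hjk hc0 hv0 hcv hvi⟩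
    · exact ⟨i, hik, two_move hK hij.symm hjk hik (fun l hl h3 h4 => hc0 l hl h4 h3)
        (fun l hl h3 h4 => hv0 l hl h4 h3) hcv hvj⟩

/-- **WUD** -/
theorem wud (oda : OdaStmt) : WudStmt := by
  intro R hO hC k a b _ hne hab
  obtain ⟨K, hK'⟩ := hC
  have hK : ∀ m, K ≤ m → H66.Cn R m := by
    intro m hm
    have := hK' m hm
    rwa [H66.v2_left, H66.v2_right] at this
  have hE := H66.E_of hab
  have hgen : ∀ c c' : ℕ → ℕ, R.R k c c' → deg k c < deg k c' →
      ∃ j ≤ k, R.R k c (sg j (deg k c)) := by
    intro c c' h hlt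
    rcases Nat.lt_or_ge (deg k c) 3 with h3 | h3
    · exact small hK h (by omega) hlt
    · exact general4 oda hO hK _ c rfl h3 h hlt
  have hcen : ∀ p q : ℕ, p < q → H66.E R p q → H66.Cn R p ∧ H66.Cn R q := by
    intro p q hpq h
    obtain ⟨g, rfl⟩ : ∃ g, q = p + g := ⟨q - p, by omega⟩
    have hg1 : 1 ≤ g := by omega
    have hle : K ≤ K * g := Nat.le_mul_of_pos_right K hg1
    have h1 := H66.E_iter h K
    have hN : H66.Cn R (p + K * g) := hK _ (by omega)
    exact ⟨H66.Cn_of_E h1 hN, H66.Cn_of_E (H66.E_trans (H66.E_symm h) h1) hN⟩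
  have hCa : H66.Cn R (deg k a) := by
    rcases lt_or_gt_of_ne hne with hlt | hgt
    · exact (hcen _ _ hlt hE).1
    · exact (hcen _ _ hgt (H66.E_symm hE)).2
  have hex : ∃ j ≤ k, R.R k a (sg j (deg k a)) := by
    rcases lt_or_gt_of_ne hne with hlt | hgt
    · exact hgen a b hab hlt
    · obtain ⟨j, hj, h⟩ := hgen b a (R.symm hab) hgt
      exact ⟨j, hj, R.trans hab (R.trans h (H66.E_to (H66.E_symm hE) hj))⟩
  obtain ⟨j, hj, h⟩ := hex
  refine ⟨fun i hi => R.trans h (H66.Cn_move hCa hj hi), ?_⟩
  rw [H66.v2_left, H66.v2_right]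
  exact hCa

end Pool.Agent.MVO.H49
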